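import Mathlib
import Pool.Agent.Q277.MacMahon

/-!
# `p`-adic valuation of `a(pn) - a(n)` for a triple binomial sum

With `a(n) = ∑_j C(n+j,j) C(n,j) C(n-j,j)` we prove that `(a(pn) - a(n)) / (pn)^3` is a `p`-adic
integer for every prime `p > 3` and every positive `n`.

Proof: a formula of MacMahon type gives `2 a(n) = ∑_k C(n,k)^3 (ζ^{n-2k} + ζ^{2k-n})` with a
primitive sixth root of unity `ζ`; then the Jacobsthal-Kazandzidis congruence is applied termwise.
-/

open Finset

namespace Pool.Agent.Results.MP_ebce10_nt.Supercongruence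

/-- `a(n) = ∑_{j=0}^n C(n+j,j) C(n,j) C(n-j,j)`. -/
def a (n : ℕ) : ℕ := ∑ j ∈ range (n + 1), (n + j).choose j * n.choose j * (n - j).choose j

/-- For every prime `p > 3` and every positive `n`, the number `(a(pn) - a(n)) / (pn)^3` is a
quotient `u / w` of integers with `w` not divisible by `p`; equivalently
`v_p(a(pn) - a(n)) ≥ 3 + 3 v_p(n)`. -/
theorem result (p n : ℕ) (hp : p.Prime) (h3 : 3 < p) (hn : 1 ≤ n) :
    (∃ u w : ℤ, ¬ (p : ℤ) ∣ w ∧ ((a (p * n) : ℚ) - a n) / ((p : ℚ) * n) ^ 3 = u / w) ∧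
      (p : ℤ) ^ (3 + 3 * padicValNat p n) ∣ (a (p * n) : ℤ) - a n := by
  have : Fact p.Prime := ⟨hp⟩
  have hp5 : 5 ≤ p := by
    by_contra h
    have h4 : p = 4 := by omega
    rw [h4] at hp
    exact absurd hp (by norm_num)
  have key := Q277.MacMahon.main (p := p) hp5 (padicValNat p n) n pow_padicValNat_dvd
  rw [add_comm] at key
  refine ⟨?_, key⟩
  obtain ⟨z, hz⟩ := key
  obtain ⟨n', hn'⟩ : p ^ padicValNat p n ∣ n := pow_padicValNat_dvd
  have hnd : ¬ p ∣ n' := by
    intro h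
    obtain ⟨t, ht⟩ := h
    have h1 : p ^ (padicValNat p n + 1) ∣ n := ⟨t, by rw [pow_succ, mul_assoc, ← ht]; exact hn'⟩
    exact pow_succ_padicValNat_not_dvd (by omega) h1
  refine ⟨z, (n' : ℤ) ^ 3, ?_, ?_⟩
  · intro h
    have h1 := (Nat.prime_iff_prime_int.1 hp).dvd_of_dvd_pow h
    exact hnd (by exact_mod_cast h1)
  · have hz' := congrArg (Int.cast : ℤ → ℚ) hz
    push_cast at hz'
    have e : ((Q277.MacMahon.a (p * n) : ℚ) - Q277.MacMahon.a n) = ((a (p * n) : ℚ) - a n) := rfl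
    rw [e] at hz'
    rw [hz']
    have hp0 : (p : ℚ) ≠ 0 := by exact_mod_cast hp.ne_zero
    have hn0 : (n' : ℚ) ≠ 0 := by
      intro h
      apply hnd
      have : n' = 0 := by exact_mod_cast h
      rw [this]; exact dvd_zero _
    have hcast : (n : ℚ) = (p : ℚ) ^ padicValNat p n * n' := by
      have := congrArg (Nat.cast : ℕ → ℚ) hn'
      push_cast at this
      exact this
    set v := padicValNat p n with hv
    rw [hcast]
    have h1 : ((p : ℚ) * (p ^ v * n')) ^ 3 = (p : ℚ) ^ (3 + 3 * v) * (n' : ℚ) ^ 3 := by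
      rw [pow_add, pow_mul]; ring
    rw [h1]
    push_cast
    have h2 : (p : ℚ) ^ (3 + 3 * v) ≠ 0 := pow_ne_zero _ hp0
    field_simp

end Pool.Agent.Results.MP_ebce10_nt.Supercongruence
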